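import Mathlib

set_option autoImplicit false

namespace Pool.Agent.Results.MP_755a2c_co.TriangulationFails

/-- The points of the circle are numbered `0, ..., n-1` in their circular order. The straight
segments `ab` and `cd` cross: their endpoints are distinct and alternate around the circle. -/
def Cross {n : ℕ} (a b c d : Fin n) : Prop :=
  (min a b < min c d ∧ min c d < max a b ∧ max a b < max c d) ∨
  (min c d < min a b ∧ min a b < max c d ∧ max c d < max a b)

/-- The segment `ab` is crossed by `m` pairwise independent edges `x i, y i` of `G`. -/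
def Pierced {n : ℕ} (G : SimpleGraph (Fin n)) (m : ℕ) (a b : Fin n) : Prop :=
  ∃ x y : Fin m → Fin n, Function.Injective (Sum.elim x y) ∧
    ∀ i, G.Adj (x i) (y i) ∧ Cross a b (x i) (y i)

/-- The circular drawing of `G` is `k`-matching-planar. -/
def MatchingPlanar {n : ℕ} (k : ℕ) (G : SimpleGraph (Fin n)) : Prop :=
  ∀ a b, G.Adj a b → ¬ Pierced G (k + 1) a b

/-- The set `T` of segments consists of the `n` sides of the outer cycle and of an
inclusion-maximal set of pairwise non-crossing diagonals. -/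
structure IsTriangulation {n : ℕ} (T : SimpleGraph (Fin n)) : Prop where
  side : ∀ a b : Fin n, (a : ℕ) + 1 = b → T.Adj a b
  closing : ∀ a b : Fin n, (a : ℕ) = 0 → (b : ℕ) + 1 = n → a ≠ b → T.Adj a b
  planar : ∀ a b c d, T.Adj a b → T.Adj c d → ¬ Cross a b c d
  maximal : ∀ a b, a ≠ b → (∀ c d, T.Adj c d → ¬ Cross a b c d) → T.Adj a b

theorem cross_iff {n : ℕ} (a b c d : Fin n) (hab : a < b) :
    Cross a b c d ↔ (a < c ∧ c < b ∧ (d < a ∨ b < d)) ∨ (a < d ∧ d < b ∧ (c < a ∨ b < c)) := by
  unfold Cross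
  rw [min_eq_left hab.le, max_eq_right hab.le]
  rcases le_total c d with h | h
  · rw [min_eq_left h, max_eq_right h]
    constructor
    · rintro (⟨h1, h2, h3⟩ | ⟨h1, h2, h3⟩)
      · exact Or.inl ⟨h1, h2, Or.inr h3⟩
      · exact Or.inr ⟨h2, h3, Or.inl h1⟩
    · rintro (⟨h1, h2, h3 | h3⟩ | ⟨h1, h2, h3 | h3⟩)
      · exact absurd (lt_of_lt_of_le h1 h) (not_lt.2 h3.le)
      · exact Or.inl ⟨h1, h2, h3⟩
      · exact Or.inr ⟨h3, h1, h2⟩
      · exact absurd (lt_of_le_of_lt h h2) (not_lt.2 h3.le)
  · rw [min_eq_right h, max_eq_left h]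
    constructor
    · rintro (⟨h1, h2, h3⟩ | ⟨h1, h2, h3⟩)
      · exact Or.inr ⟨h1, h2, Or.inr h3⟩
      · exact Or.inl ⟨h2, h3, Or.inl h1⟩
    · rintro (⟨h1, h2, h3 | h3⟩ | ⟨h1, h2, h3 | h3⟩)
      · exact Or.inr ⟨h3, h1, h2⟩
      · exact absurd (lt_of_le_of_lt h h2) (not_lt.2 h3.le)
      · exact absurd (lt_of_lt_of_le h1 h) (not_lt.2 h3.le)
      · exact Or.inl ⟨h1, h2, h3⟩

theorem cross_swap {n : ℕ} (a b c d : Fin n) : Cross a b c d ↔ Cross b a c d := by
  unfold Cross
  rw [min_comm a b, max_comm a b]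

theorem pierced_swap {n : ℕ} (G : SimpleGraph (Fin n)) (m : ℕ) (a b : Fin n)
    (h : Pierced G m a b) : Pierced G m b a := by
  obtain ⟨x, y, h1, h2⟩ := h
  exact ⟨x, y, h1, fun i => ⟨(h2 i).1, (cross_swap a b _ _).1 (h2 i).2⟩⟩

/-- The circulant graph: all chords of cyclic length at most `k + 1`. -/
def circ (k n : ℕ) : SimpleGraph (Fin n) where
  Adj a b := a ≠ b ∧ (((a : ℕ) ≤ b + (k + 1) ∧ (b : ℕ) ≤ a + (k + 1)) ∨
    (b : ℕ) + n ≤ a + (k + 1) ∨ (a : ℕ) + n ≤ b + (k + 1))
  symm := ⟨by
    rintro a b ⟨h1, h2⟩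
    refine ⟨h1.symm, ?_⟩
    omega⟩
  loopless := ⟨by
    rintro a ⟨h1, _⟩
    exact h1 rfl⟩

theorem circ_matchingPlanar (k n : ℕ) : MatchingPlanar k (circ k n) := by
  -- it suffices to treat `a < b`
  have key : ∀ a b : Fin n, a < b → (circ k n).Adj a b → ¬ Pierced (circ k n) (k + 1) a b := by
    intro a b hab hadj hP
    obtain ⟨x, y, hinj, hxy⟩ := hP
    have hcr : ∀ i, (a < x i ∧ x i < b ∧ (y i < a ∨ b < y i)) ∨
        (a < y i ∧ y i < b ∧ (x i < a ∨ b < x i)) := fun i => (cross_iff a b _ _ hab).1 (hxy i).2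
    have hxx : ∀ i j, x i = x j → i = j := fun i j h => by
      have := @hinj (Sum.inl i) (Sum.inl j) h
      exact Sum.inl.inj this
    have hyy : ∀ i j, y i = y j → i = j := fun i j h => by
      have := @hinj (Sum.inr i) (Sum.inr j) h
      exact Sum.inr.inj this
    have hxyne : ∀ i j, x i ≠ y j := fun i j h => by
      have := @hinj (Sum.inl i) (Sum.inr j) h
      cases this
    have hab' : (a : ℕ) < b := hab
    have hb := b.isLt
    obtain ⟨_, hdist⟩ := hadj
    rcases (show (b : ℕ) ≤ a + (k + 1) ∨ (a : ℕ) + n ≤ b + (k + 1) by omega) with h | h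
    · -- few vertices inside
      have hcard : (Finset.univ : Finset (Fin (k + 1))).card ≤ (Finset.Ioo a b).card := by
        apply Finset.card_le_card_of_injOn (fun i => if a < x i ∧ x i < b then x i else y i)
        · intro i _
          simp only [Finset.coe_Ioo, Set.mem_Ioo]
          split_ifs with hc
          · exact hc
          · rcases hcr i with h1 | h1
            · exact absurd ⟨h1.1, h1.2.1⟩ hc
            · exact ⟨h1.1, h1.2.1⟩
        · intro i _ j _ hij
          simp only at hij
          split_ifs at hij with h1 h2 h2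
          · exact hxx _ _ hij
          · exact absurd hij (hxyne _ _)
          · exact absurd hij.symm (hxyne _ _)
          · exact hyy _ _ hij
      rw [Finset.card_univ, Fintype.card_fin, Fin.card_Ioo] at hcard
      omega
    · -- few vertices outside
      have hcard : (Finset.univ : Finset (Fin (k + 1))).card
          ≤ (Finset.univ \ Finset.Icc a b).card := by
        apply Finset.card_le_card_of_injOn (fun i => if a < x i ∧ x i < b then y i else x i)
        · intro i _
          simp only [Finset.coe_sdiff, Finset.coe_univ, Finset.coe_Icc, Set.mem_sdiff,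
            Set.mem_univ, true_and, Set.mem_Icc, not_and, not_le]
          split_ifs with hc
          · rcases hcr i with h1 | h1
            · rcases h1.2.2 with h2 | h2
              · intro h3; exact absurd h2 (not_lt.2 h3)
              · intro _; exact h2
            · rcases h1.2.2 with h2 | h2
              · exact absurd hc.1 (not_lt.2 h2.le)
              · exact absurd hc.2 (not_lt.2 h2.le)
          · rcases hcr i with h1 | h1
            · exact absurd ⟨h1.1, h1.2.1⟩ hc
            · rcases h1.2.2 with h2 | h2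
              · intro h3; exact absurd h2 (not_lt.2 h3)
              · intro _; exact h2
        · intro i _ j _ hij
          simp only at hij
          split_ifs at hij with h1 h2 h2
          · exact hyy _ _ hij
          · exact absurd hij.symm (hxyne _ _)
          · exact absurd hij (hxyne _ _)
          · exact hxx _ _ hij
      rw [Finset.card_univ, Fintype.card_fin, Finset.card_univ_sdiff, Fintype.card_fin,
        Fin.card_Icc] at hcard
      omega
  intro a b hadj hP
  rcases lt_or_gt_of_ne hadj.1 with h | h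
  · exact key a b h hadj hP
  · exact key b a h hadj.symm (pierced_swap _ _ _ _ hP)

/-- Every member of a triangulation with at least one vertex between its endpoints is a side of
a triangle lying on that side. -/
theorem exists_apex {n : ℕ} {T : SimpleGraph (Fin n)} (hT : IsTriangulation T) (a b : Fin n)
    (hab : (a : ℕ) + 2 ≤ b) (hadj : T.Adj a b) :
    ∃ c : Fin n, a < c ∧ c < b ∧ T.Adj a c ∧ T.Adj c b := by
  classical
  have hb := b.isLt
  set S : Finset (Fin n) := Finset.univ.filter (fun c => a < c ∧ c < b ∧ T.Adj a c) with hS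
  have hne : S.Nonempty := by
    refine ⟨⟨(a : ℕ) + 1, by omega⟩, ?_⟩
    rw [hS, Finset.mem_filter]
    refine ⟨Finset.mem_univ _, ?_, ?_, ?_⟩
    · rw [Fin.lt_def]; simp
    · rw [Fin.lt_def]; simp; omega
    · exact hT.side _ _ rfl
  set c := S.max' hne with hc
  have hcS : c ∈ S := Finset.max'_mem S hne
  have hcS' := hcS
  rw [hS, Finset.mem_filter] at hcS'
  obtain ⟨_, hac, hcb, hTac⟩ := hcS'
  refine ⟨c, hac, hcb, hTac, ?_⟩
  apply hT.maximal c b hcb.ne
  -- no member of `T` crosses `c b`
  have key : ∀ x y : Fin n, x < y → T.Adj x y → ¬ Cross c b x y := by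
    intro x y hxy hTxy hcross
    rw [cross_iff c b x y hcb] at hcross
    have hcr1 : ¬ Cross a b x y := hT.planar a b x y hadj hTxy
    rw [cross_iff a b x y (hac.trans hcb)] at hcr1
    have hcr2 : ¬ Cross a c x y := hT.planar a c x y hTac hTxy
    rw [cross_iff a c x y hac] at hcr2
    rcases hcross with ⟨h1, h2, h3 | h3⟩ | ⟨h1, h2, h3 | h3⟩
    · exact absurd (h1.trans hxy) (not_lt.2 h3.le)
    · exact hcr1 (Or.inl ⟨hac.trans h1, h2, Or.inr h3⟩)
    · -- x < c < y < b
      rcases lt_trichotomy x a with hxa | hxa | hxa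
      · exact hcr1 (Or.inr ⟨hac.trans h1, h2, Or.inl hxa⟩)
      · have hy : y ∈ S := by
          rw [hS, Finset.mem_filter]
          exact ⟨Finset.mem_univ _, hac.trans h1, h2, hxa ▸ hTxy⟩
        exact absurd (Finset.le_max' S y hy) (not_le.2 h1)
      · exact hcr2 (Or.inl ⟨hxa, h3, Or.inr h1⟩)
    · exact absurd (hxy.trans h2) (not_lt.2 h3.le)
  intro x y hTxy hcross
  rcases lt_or_gt_of_ne hTxy.ne with h | h
  · exact key x y h hTxy hcross
  · refine key y x h hTxy.symm ?_
    unfold Cross at hcross ⊢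
    rw [min_comm y x, max_comm y x]
    exact hcross

theorem exists_long {n k : ℕ} {T : SimpleGraph (Fin n)} (hT : IsTriangulation T)
    (hn : n = 6 * k + 1) (hk : 1 ≤ k) :
    ∃ a b : Fin n, T.Adj a b ∧ (a : ℕ) + (2 * k + 1) ≤ b ∧ (b : ℕ) + (2 * k + 1) ≤ a + n := by
  have key : ∀ m : ℕ, ∀ a b : Fin n, T.Adj a b → (a : ℕ) + m = b → n ≤ m + 2 * k →
      ∃ a b : Fin n, T.Adj a b ∧ (a : ℕ) + (2 * k + 1) ≤ b ∧ (b : ℕ) + (2 * k + 1) ≤ a + n := by
    intro m
    induction m using Nat.strong_induction_on with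
    | _ m ih =>
      intro a b hab hm hmn
      obtain ⟨c, hac, hcb, h1, h2⟩ := exists_apex hT a b (by omega) hab
      rw [Fin.lt_def] at hac hcb
      by_cases hA : n ≤ ((c : ℕ) - a) + 2 * k
      · exact ih ((c : ℕ) - a) (by omega) a c h1 (by omega) hA
      by_cases hB : n ≤ ((b : ℕ) - c) + 2 * k
      · exact ih ((b : ℕ) - c) (by omega) c b h2 (by omega) hB
      by_cases hC : (a : ℕ) + (2 * k + 1) ≤ c
      · exact ⟨a, c, h1, hC, by omega⟩
      · exact ⟨c, b, h2, by omega, by omega⟩
  have h0 : T.Adj (⟨0, by omega⟩ : Fin n) ⟨n - 1, by omega⟩ := by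
    apply hT.closing
    · rfl
    · simp; omega
    · intro h
      have := congrArg Fin.val h
      simp at this
      omega
  exact key (n - 1) _ _ h0 (by simp) (by omega)

theorem pierced_long {n k : ℕ} (a b : Fin n) (h1 : (a : ℕ) + (2 * k + 1) ≤ b)
    (h2 : (b : ℕ) + (2 * k + 1) ≤ a + n) : Pierced (circ k n) (2 * k) a b := by
  have ha := a.isLt
  have hb := b.isLt
  let fx : ℕ → ℕ := fun i => if i < k then (a : ℕ) + 1 + i else b - 1 - (i - k)
  let fy : ℕ → ℕ := fun i => if i < k then (if k - i ≤ a then (a : ℕ) - (k - i) else a + n - (k - i))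
    else (if (b : ℕ) + (2 * k - i) < n then b + (2 * k - i) else b + (2 * k - i) - n)
  have hfx : ∀ i, i < 2 * k → (a : ℕ) < fx i ∧ fx i < b := by
    intro i hi
    simp only [fx]
    split_ifs <;> omega
  have hfy : ∀ i, i < 2 * k → fy i < n ∧ (fy i < a ∨ (b : ℕ) < fy i) := by
    intro i hi
    simp only [fy]
    split_ifs <;> omega
  refine ⟨fun i => ⟨fx i, by have := hfx i i.isLt; omega⟩,
    fun i => ⟨fy i, (hfy i i.isLt).1⟩, ?_, ?_⟩
  · -- injectivity
    have hxinj : ∀ i j, i < 2 * k → j < 2 * k → fx i = fx j → i = j := by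
      intro i j hi hj h
      simp only [fx] at h
      split_ifs at h <;> omega
    have hyinj : ∀ i j, i < 2 * k → j < 2 * k → fy i = fy j → i = j := by
      intro i j hi hj h
      simp only [fy] at h
      split_ifs at h <;> omega
    rintro (i | i) (j | j) h
    · have := congrArg Fin.val h
      simp only [Sum.elim_inl] at this
      exact congrArg Sum.inl (Fin.ext (hxinj _ _ i.isLt j.isLt this))
    · exfalso
      have := congrArg Fin.val h
      simp only [Sum.elim_inl, Sum.elim_inr] at this
      have e1 := hfx i i.isLt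
      have e2 := hfy j j.isLt
      omega
    · exfalso
      have := congrArg Fin.val h
      simp only [Sum.elim_inl, Sum.elim_inr] at this
      have e1 := hfx j j.isLt
      have e2 := hfy i i.isLt
      omega
    · have := congrArg Fin.val h
      simp only [Sum.elim_inr] at this
      exact congrArg Sum.inr (Fin.ext (hyinj _ _ i.isLt j.isLt this))
  · intro i
    have hi := i.isLt
    have e1 := hfx i hi
    have e2 := hfy i hi
    constructor
    · refine ⟨?_, ?_⟩
      · intro h
        have := congrArg Fin.val h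
        simp only at this
        omega
      · show (fx i ≤ fy i + (k + 1) ∧ fy i ≤ fx i + (k + 1)) ∨
          fy i + n ≤ fx i + (k + 1) ∨ fx i + n ≤ fy i + (k + 1)
        simp only [fx, fy]
        split_ifs <;> omega
    · rw [cross_iff a b _ _ (by rw [Fin.lt_def]; omega)]
      left
      refine ⟨?_, ?_, ?_⟩
      · rw [Fin.lt_def]; exact e1.1
      · rw [Fin.lt_def]; exact e1.2
      · rw [Fin.lt_def, Fin.lt_def]; exact e2.2

/-- Sanity check: the fan from the vertex `0` is a triangulation in the above sense. -/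
theorem fan_isTriangulation {n : ℕ} (hn : 3 ≤ n) : IsTriangulation (n := n)
    { Adj := fun a b => a ≠ b ∧ ((a : ℕ) = 0 ∨ (b : ℕ) = 0 ∨ (a : ℕ) + 1 = b ∨ (b : ℕ) + 1 = a)
      symm := ⟨by rintro a b ⟨h1, h2⟩; exact ⟨h1.symm, by omega⟩⟩
      loopless := ⟨by rintro a ⟨h1, _⟩; exact h1 rfl⟩ } := by
  refine ⟨?_, ?_, ?_, ?_⟩
  · intro a b h
    refine ⟨fun h' => ?_, Or.inr (Or.inr (Or.inl h))⟩
    rw [h'] at h
    omega
  · intro a b h _ hne
    exact ⟨hne, Or.inl h⟩
  · intro a b c d hab hcd hcross
    obtain ⟨h1, h2⟩ := hab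
    obtain ⟨h3, h4⟩ := hcd
    unfold Cross at hcross
    simp only [Fin.lt_def, Fin.coe_min, Fin.coe_max] at hcross
    omega
  · intro a b hne h
    refine ⟨hne, ?_⟩
    by_contra hcon
    push Not at hcon
    obtain ⟨ha0, hb0, h1, h2⟩ := hcon
    have hne' : (a : ℕ) ≠ b := fun h => hne (Fin.ext h)
    have ha := a.isLt
    have hb := b.isLt
    apply h ⟨0, by omega⟩ ⟨min (a : ℕ) (b : ℕ) + 1, by omega⟩
    · refine ⟨?_, Or.inl rfl⟩
      intro h
      have := congrArg Fin.val h
      simp at this
    · unfold Cross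
      simp only [Fin.lt_def, Fin.coe_min, Fin.coe_max]
      omega

/-- For every `k ≥ 1` there is a circular `k`-matching-planar drawing of a graph on `6k+1`
vertices such that every triangulation of the outer cycle has a segment which is pierced by
`2k ≥ k+1` pairwise independent edges. -/
theorem result : ∀ k : ℕ, 1 ≤ k → ∃ G : SimpleGraph (Fin (6 * k + 1)), MatchingPlanar k G ∧
    ∀ T : SimpleGraph (Fin (6 * k + 1)), IsTriangulation T →
      ∃ a b : Fin (6 * k + 1), T.Adj a b ∧ Pierced G (2 * k) a b := by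
  intro k hk
  refine ⟨circ k (6 * k + 1), circ_matchingPlanar k _, ?_⟩
  intro T hT
  obtain ⟨a, b, h1, h2, h3⟩ := exists_long hT rfl hk
  exact ⟨a, b, h1, pierced_long a b h2 h3⟩

end Pool.Agent.Results.MP_755a2c_co.TriangulationFails
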